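import Pool.Agent.N589.LL.Tasks

/-!
# LL/03: fixed vectors of the Steinberg representation
-/

open scoped WithZero MatrixGroups
open OnePoint

noncomputable section

namespace N589LL

namespace Fix

variable {F : Type} [Field F] (v : Valuation F ℤᵐ⁰)

open Classical in
lemma P1rep_app (g : GL (Fin 2) F) (φ : OnePoint F → ℂ) (x : OnePoint F) :
    P1rep F g φ x = φ (g⁻¹ • x) := rfl

open Classical in
lemma upr_smul (c r : F) : (upr c : GL (Fin 2) F) • (r : OnePoint F) = ((r + c : F) : OnePoint F) := by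
  rw [smul_some_eq_ite]
  simp [upr]

open Classical in
lemma wm_smul_some (r : F) (hr : r ≠ 0) :
    (wm : GL (Fin 2) F) • (r : OnePoint F) = ((r⁻¹ : F) : OnePoint F) := by
  rw [smul_some_eq_ite]
  simp [wm, hr]

open Classical in
lemma wm_smul_zero :
    (wm : GL (Fin 2) F) • ((0 : F) : OnePoint F) = ∞ := by
  rw [smul_some_eq_ite]
  simp [wm]

lemma wm_mul_wm : (wm : GL (Fin 2) F) * wm = 1 := by
  ext i j
  fin_cases i <;> fin_cases j <;> simp [wm]

open Classical in
lemma wm_wm (x : OnePoint F) : (wm : GL (Fin 2) F) • ((wm : GL (Fin 2) F) • x) = x := by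
  rw [← mul_smul, wm_mul_wm, one_smul]

/-- representatives of `O` modulo `π^m` -/
lemma reps {ϖ : Fˣ} (h : Loc2 v ϖ) (m : ℕ) : ∃ R : Finset F, ∀ x, v x ≤ 1 →
    ∃ r ∈ R, v (x - r) ≤ WithZero.exp (-(m : ℤ)) := by
  classical
  induction m with
  | zero => exact ⟨{0}, fun x hx => ⟨0, by simp, by simpa using hx⟩⟩
  | succ m ih =>
    obtain ⟨R, hR⟩ := ih
    refine ⟨R ∪ R.image (fun r => r + (ϖ : F) ^ m), fun x hx => ?_⟩
    obtain ⟨r, hr, hxr⟩ := hR x hx
    have hlt : ∀ y : F, v y < 1 → v ((ϖ : F) ^ m * y) ≤ WithZero.exp (-((m + 1 : ℕ) : ℤ)) := by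
      intro y hy
      rw [map_mul, map_pow, h.1]
      by_cases h0 : v y = 0
      · rw [h0, mul_zero]; exact zero_le
      have h1 : v y ≤ WithZero.exp (-1) := by
        have : WithZero.log (v y) < 0 := by
          have := (WithZero.log_lt_iff_lt_exp h0 (a := 0)).2 (by simpa using hy)
          exact this
        rw [← WithZero.log_le_iff_le_exp h0]
        omega
      calc WithZero.exp (-1 : ℤ) ^ m * v y
          ≤ WithZero.exp (-1 : ℤ) ^ m * WithZero.exp (-1 : ℤ) := mul_le_mul_right h1 _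
        _ = WithZero.exp (-((m + 1 : ℕ) : ℤ)) := by
            rw [← pow_succ, ← WithZero.exp_nsmul]; congr 1; simp
    have hϖ : (ϖ : F) ^ m ≠ 0 := pow_ne_zero _ ϖ.ne_zero
    have hy : v ((x - r) / (ϖ : F) ^ m) ≤ 1 := by
      rw [map_div₀, map_pow, h.1, ← WithZero.exp_nsmul]
      refine div_le_one_of_le₀ (hxr.trans_eq ?_) zero_le
      congr 1; simp
    rcases h.2 _ hy with h1 | h1
    · refine ⟨r, by simp [hr], ?_⟩
      have := hlt _ h1
      rwa [mul_div_cancel₀ _ hϖ] at this
    · refine ⟨r + (ϖ : F) ^ m, by simp [hr], ?_⟩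
      have := hlt _ h1
      rwa [mul_sub, mul_div_cancel₀ _ hϖ, mul_one, sub_sub] at this

lemma mem_Km_upr {m : ℕ} {c : F} (hc : v c ≤ WithZero.exp (-(m : ℤ))) : upr c ∈ Km v m := by
  have hc1 : v c ≤ 1 := hc.trans (by rw [← WithZero.exp_zero, WithZero.exp_le_exp]; omega)
  refine ⟨⟨fun i j => ?_, fun i j => ?_⟩, fun i j => ?_⟩
  · fin_cases i <;> fin_cases j <;> simp [upr, hc1]
  · fin_cases i <;> fin_cases j <;> simp [upr, hc1]
  · fin_cases i <;> fin_cases j <;> first | (simp [upr]; done) | simpa [upr] using hc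

lemma mem_glInt_wm : (wm : GL (Fin 2) F) ∈ glInt v := by
  refine ⟨fun i j => ?_, fun i j => ?_⟩
  · fin_cases i <;> fin_cases j <;> simp [wm]
  · fin_cases i <;> fin_cases j <;> simp [wm]

lemma mem_Km_conj_wm {m : ℕ} {c : F} (hc : v c ≤ WithZero.exp (-(m : ℤ))) :
    (wm : GL (Fin 2) F) * upr c * wm ∈ Km v m := by
  have hc1 : v c ≤ 1 := hc.trans (by rw [← WithZero.exp_zero, WithZero.exp_le_exp]; omega)
  have e : (wm : GL (Fin 2) F) * upr c * wm = lwr c := by
    ext i j
    fin_cases i <;> fin_cases j <;> simp [wm, upr, lwr]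
  rw [e]
  refine ⟨⟨fun i j => ?_, fun i j => ?_⟩, fun i j => ?_⟩
  · fin_cases i <;> fin_cases j <;> simp [lwr, hc1]
  · fin_cases i <;> fin_cases j <;> simp [lwr, hc1]
  · fin_cases i <;> fin_cases j <;> first | (simp [lwr]; done) | simpa [lwr] using hc

open Classical in
/-- the representatives -/
def pts (R : Finset F) : Finset (OnePoint F) :=
  R.image OnePoint.some ∪ R.image (fun r : F => (wm : GL (Fin 2) F) • OnePoint.some r)

open Classical in
/-- finitely many orbits -/
lemma orb {m : ℕ} {R : Finset F} (hR : ∀ x, v x ≤ 1 →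
    ∃ r ∈ R, v (x - r) ≤ WithZero.exp (-(m : ℤ))) (x : OnePoint F) :
    ∃ k ∈ Km v m, ∃ p ∈ pts R, x = k • p := by
  have key : ∀ y : F, v y ≤ 1 → ∃ k ∈ Km v m, ∃ p ∈ pts R,
      (wm : GL (Fin 2) F) • (y : OnePoint F) = k • p := by
    intro y hy
    obtain ⟨r, hr, hyr⟩ := hR y hy
    refine ⟨_, mem_Km_conj_wm v hyr, (wm : GL (Fin 2) F) • (r : OnePoint F), ?_, ?_⟩
    · exact Finset.mem_union_right _ (Finset.mem_image_of_mem _ hr)
    · rw [mul_smul, wm_wm, mul_smul, upr_smul]
      congr 2; ring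
  induction x using OnePoint.rec with
  | infty =>
    have := key 0 (by simp)
    rwa [wm_smul_zero] at this
  | coe y =>
    rcases le_total (v y) 1 with hy | hy
    · obtain ⟨r, hr, hyr⟩ := hR y hy
      refine ⟨upr (y - r), mem_Km_upr v hyr, (r : OnePoint F), ?_, ?_⟩
      · exact Finset.mem_union_left _ (Finset.mem_image_of_mem _ hr)
      · rw [upr_smul]; congr 1; ring
    · have hy0 : y ≠ 0 := by rintro rfl; simp at hy
      have := key y⁻¹ (by rw [map_inv₀]; exact inv_le_one_of_one_le₀ hy)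
      rwa [wm_smul_some _ (inv_ne_zero hy0), inv_inv] at this

/-- A function invariant under `Km m` has finite range. -/
lemma fin_range {ϖ : Fˣ} (h : Loc2 v ϖ) {φ : OnePoint F → ℂ} (hφ : φ ∈ P1smooth v) :
    (Set.range φ).Finite := by
  classical
  obtain ⟨m, hm⟩ := hφ
  obtain ⟨R, hR⟩ := reps v h m
  refine ((Finset.finite_toSet (pts R)).image φ).subset ?_
  rintro _ ⟨x, rfl⟩
  obtain ⟨k, hk, p, hp, rfl⟩ := orb v hR x
  refine ⟨p, hp, ?_⟩
  have := congrFun (hm _ (inv_mem hk)) p
  rw [P1rep_app, inv_inv] at this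
  exact this.symm

/-- If the class of `φ` is fixed by `h` then `φ` is fixed by `h`. -/
lemma fixed_of_class {ϖ : Fˣ} (h : Loc2 v ϖ) (φ : P1smooth v) (g : GL (Fin 2) F)
    (hg : StRep v g (Submodule.Quotient.mk φ) = Submodule.Quotient.mk φ) :
    P1rep F g φ.1 = φ.1 := by
  classical
  have e : StRep v g (Submodule.Quotient.mk φ) = Submodule.Quotient.mk (P1smRep v g φ) := rfl
  rw [e, Submodule.Quotient.eq] at hg
  obtain ⟨c, hc⟩ := hg
  have hc1 : ∀ x, φ.1 (g⁻¹ • x) = φ.1 x + c := by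
    intro x
    have := hc x
    have e2 : ((P1smRep v g φ - φ : P1smooth v) : OnePoint F → ℂ) x = φ.1 (g⁻¹ • x) - φ.1 x := rfl
    rw [e2] at this
    rw [← this]; ring
  have hn : ∀ (n : ℕ) x, φ.1 ((g⁻¹) ^ n • x) = φ.1 x + n * c := by
    intro n
    induction n with
    | zero => intro x; simp
    | succ n ih =>
      intro x
      rw [pow_succ, mul_smul, ih, hc1]
      push_cast; ring
  have hc0 : c = 0 := by
    by_contra hne
    have hfin := fin_range v h φ.2
    have hinf : (Set.range (fun n : ℕ => φ.1 ((g⁻¹) ^ n • (∞ : OnePoint F)))).Infinite := by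
      refine Set.infinite_range_of_injective ?_
      intro a b hab
      simp only [hn] at hab
      have h1 := add_left_cancel hab
      exact_mod_cast mul_right_cancel₀ hne h1
    refine hinf (hfin.subset ?_)
    rintro _ ⟨n, rfl⟩
    exact ⟨_, rfl⟩
  funext x
  rw [P1rep_app, hc1, hc0, add_zero]

lemma Km_zero_eq (g : GL (Fin 2) F) (hg : g ∈ Km v 0) : g ∈ glInt v := hg.1

end Fix

open N589LL.Fix in
theorem TaskFix_proof : TaskFix := by
  classical
  intro F _ v ϖ h
  refine ⟨?_, ?_, ?_⟩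
  · rw [eq_bot_iff]
    intro x hx
    obtain ⟨φ, rfl⟩ := Submodule.Quotient.mk_surjective _ x
    have hφ : ∀ g ∈ glInt v, P1rep F g φ.1 = φ.1 := fun g hg => fixed_of_class v h φ g (hx g hg)
    rw [Submodule.mem_bot, Submodule.Quotient.mk_eq_zero]
    refine ⟨φ.1 ((0 : F) : OnePoint F), fun x => ?_⟩
    have hR : ∀ x, v x ≤ 1 → ∃ r ∈ ({0} : Finset F), v (x - r) ≤ WithZero.exp (-((0 : ℕ) : ℤ)) :=
      fun x hx => ⟨0, by simp, by simpa using hx⟩
    have hinv : ∀ g ∈ glInt v, ∀ x, φ.1 (g • x) = φ.1 x := by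
      intro g hg x
      have := congrFun (hφ _ (inv_mem hg)) x
      rwa [P1rep_app, inv_inv] at this
    obtain ⟨k, hk, p, hp, rfl⟩ := orb v hR x
    rw [hinv k hk.1]
    rw [pts, Finset.mem_union] at hp
    rcases hp with hp | hp
    · simp only [Finset.image_singleton, Finset.mem_singleton] at hp
      rw [hp]
    · simp only [Finset.image_singleton, Finset.mem_singleton] at hp
      rw [hp, hinv _ (mem_glInt_wm v)]
  · intro x
    obtain ⟨φ, rfl⟩ := Submodule.Quotient.mk_surjective _ x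
    obtain ⟨m, hm⟩ := φ.2
    refine ⟨m, fun k hk => ?_⟩
    change Submodule.Quotient.mk (P1smRep v k φ) = Submodule.Quotient.mk φ
    congr 1
    exact Subtype.ext (hm k hk)
  · intro m
    obtain ⟨R, hR⟩ := reps v h m
    let P : Finset (OnePoint F) := pts R
    -- the invariant functions are finite-dimensional
    let res : ↥(fixedBy (P1rep F) (Km v m)) →ₗ[ℂ] (P → ℂ) :=
      { toFun := fun φ p => φ.1 p.1
        map_add' := fun _ _ => rfl
        map_smul' := fun _ _ => rfl }
    have hinj : Function.Injective res := by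
      intro φ ψ hφψ
      apply Subtype.ext
      funext x
      obtain ⟨k, hk, p, hp, rfl⟩ := orb v hR x
      have h1 := congrFun (φ.2 _ (inv_mem hk)) p
      have h2 := congrFun (ψ.2 _ (inv_mem hk)) p
      rw [P1rep_app, inv_inv] at h1 h2
      rw [h1, h2]
      exact congrFun hφψ ⟨p, hp⟩
    have : FiniteDimensional ℂ ↥(fixedBy (P1rep F) (Km v m)) :=
      FiniteDimensional.of_injective res hinj
    let cl : ↥(fixedBy (P1rep F) (Km v m)) →ₗ[ℂ] StE v :=
      (P1const v).mkQ.comp (Submodule.inclusion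
        (show fixedBy (P1rep F) (Km v m) ≤ P1smooth v from fun φ hφ => ⟨m, hφ⟩))
    have hle : fixedBy (StRep v) (Km v m) ≤ LinearMap.range cl := by
      intro x hx
      obtain ⟨φ, rfl⟩ := Submodule.Quotient.mk_surjective _ x
      refine ⟨⟨φ.1, fun k hk => fixed_of_class v h φ k (hx k hk)⟩, ?_⟩
      rfl
    have : FiniteDimensional ℂ ↥(LinearMap.range cl) := inferInstance
    exact Submodule.finiteDimensional_of_le hle

end N589LL
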